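import Pool.Agent.Lib.MP_b03ab8_lc.DDefs

/-!
# Module D.Crt: fractions from residues

PROOFS. `MM_pos`: `gg_pos`. `gg_dvd`: `Finset.dvd_prod_of_mem`. `gg_coprime`: powers of
different primes, or one of the two numbers is `1`.

`crt_query`. Let `g i = gg N i`, `M = MM N = ∏ g i`, `B = BB N`, `y = 4 ^ j k`,
`w i = (y * uu N i) % g i`.
(1) `∑ i ∈ range (N + 1), w i * (M / g i) ≡ y` modulo `M`. It is enough modulo every `g i`
(pairwise coprime, product `M`): modulo `g i` the terms `i' ≠ i` vanish (`g i ∣ M / g i'`), and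
`w i (M / g i) ≡ y * uu N i * (M / g i) ≡ y`, since `(M / g i : ZMod (g i))` is a unit
(`M / g i` is the product of the other `g`, coprime to `g i`) and `uu N i` is the
representative of its inverse (`ZMod.coe_mul_inv_eq_one`, `ZMod.natCast_zmod_val`; the case
`g i = 1` is trivial). So with `y' = y % M` there is an integer `q` with
`∑ w i (M / g i) = y' + q M`.
(2) `qc N (some j) i (k % g i) = B * w i / g i` (division in `ℕ`), because
`((k % g i) * 4 ^ j * uu N i) % g i = (4 ^ j k uu N i) % g i = w i` (`Nat.ModEq`). Let `c i` be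
this number and `C = ∑ c i`: `c i * g i ≤ B w i < (c i + 1) g i`; multiply by `M / g i`:
`c i M ≤ B w i (M / g i) < (c i + 1) M`. Summing over the `N + 1` values of `i`:
`C M ≤ B (y' + q M) < (C + N + 1) M`.
(3) `Q = C % B`, `C = Q + B (C / B)`. Take `z = C / B - q`.
-/

open Finset

namespace Pool.Agent.LinSched

theorem MM_pos (N : ℕ) : 0 < MM N := Finset.prod_pos fun i _ => gg_pos N i

theorem gg_dvd (N i : ℕ) (hi : i ≤ N) : gg N i ∣ MM N :=
  Finset.dvd_prod_of_mem (gg N) (Finset.mem_range.2 (Nat.lt_succ_of_le hi))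

theorem gg_coprime (N i j : ℕ) (h : i ≠ j) : (gg N i).Coprime (gg N j) := by
  unfold gg
  split_ifs with hi hj hj
  · exact Nat.Coprime.pow _ _ ((Nat.coprime_primes hi hj).2 h)
  · exact Nat.coprime_one_right _
  · exact Nat.coprime_one_left _
  · exact Nat.coprime_one_left _

private theorem crt_mul (N i : ℕ) (hi : i ≤ N) : gg N i * (MM N / gg N i) = MM N :=
  Nat.mul_div_cancel' (gg_dvd N i hi)

private theorem crt_cop (N i : ℕ) (hi : i ≤ N) : (MM N / gg N i).Coprime (gg N i) := by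
  have h1 : MM N = gg N i * ∏ j ∈ (range (N + 1)).erase i, gg N j :=
    (Finset.mul_prod_erase (range (N + 1)) (gg N) (Finset.mem_range.2 (Nat.lt_succ_of_le hi))).symm
  rw [h1, Nat.mul_div_cancel_left _ (gg_pos N i)]
  exact Nat.Coprime.prod_left fun j hj => gg_coprime N j i (Finset.ne_of_mem_erase hj)

private theorem crt_term (N i y : ℕ) (hi : i ≤ N) :
    ((((y * uu N i) % gg N i * (MM N / gg N i) : ℕ)) : ZMod (gg N i)) = (y : ZMod (gg N i)) := by
  have : NeZero (gg N i) := ⟨(gg_pos N i).ne'⟩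
  rw [Nat.cast_mul, ZMod.natCast_mod, Nat.cast_mul]
  unfold uu
  rw [ZMod.natCast_zmod_val, mul_assoc, mul_comm (_)⁻¹, ZMod.coe_mul_inv_eq_one _ (crt_cop N i hi),
    mul_one]

private theorem crt_other (N i i' : ℕ) (hi : i ≤ N) (hi' : i' ≤ N) (h : i' ≠ i) :
    gg N i ∣ MM N / gg N i' := by
  refine Nat.dvd_div_of_mul_dvd ?_
  exact (gg_coprime N i' i h).mul_dvd_of_dvd_of_dvd (gg_dvd N i' hi') (gg_dvd N i hi)

private theorem crt_sum (N y : ℕ) : (MM N : ℤ) ∣
    ((∑ i ∈ range (N + 1), (y * uu N i) % gg N i * (MM N / gg N i) : ℕ) : ℤ) - (y : ℤ) := by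
  have hM : (MM N : ℤ) = ∏ i ∈ range (N + 1), (gg N i : ℤ) := by
    unfold MM
    rw [Nat.cast_prod]
  rw [hM]
  refine Finset.prod_dvd_of_coprime ?_ ?_
  · intro i _ j _ hij
    exact Nat.isCoprime_iff_coprime.2 (gg_coprime N i j hij)
  · intro i hi
    have hiN : i ≤ N := Nat.lt_succ_iff.1 (Finset.mem_range.1 hi)
    rw [← ZMod.intCast_zmod_eq_zero_iff_dvd, Int.cast_sub, Int.cast_natCast, Int.cast_natCast,
      sub_eq_zero, Nat.cast_sum]
    rw [Finset.sum_eq_single i]
    · exact crt_term N i y hiN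
    · intro i' hi' hne
      have h1 := crt_other N i i' hiN (Nat.lt_succ_iff.1 (Finset.mem_range.1 hi')) hne
      rw [Nat.cast_mul, (ZMod.natCast_eq_zero_iff _ _).2 h1, mul_zero]
    · intro h
      exact absurd hi h

private theorem crt_w (N i j k : ℕ) :
    (k % gg N i * 4 ^ j * uu N i) % gg N i = (4 ^ j * k * uu N i) % gg N i := by
  have h1 : k % gg N i * 4 ^ j * uu N i ≡ k * 4 ^ j * uu N i [MOD gg N i] :=
    ((Nat.mod_modEq k (gg N i)).mul_right _).mul_right _
  rw [mul_comm (4 ^ j) k]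
  exact h1

theorem crt_query (N j k : ℕ) :
    Approx (MM N) (BB N) N (4 ^ j * k % MM N) (Q N (some j) k) := by
  set y := 4 ^ j * k with hy
  set M := MM N with hM
  set Bq := BB N with hB
  have hMpos : 0 < M := MM_pos N
  let w : ℕ → ℕ := fun i => (y * uu N i) % gg N i
  let c : ℕ → ℕ := fun i => Bq * w i / gg N i
  let S : ℕ := ∑ i ∈ range (N + 1), w i * (M / gg N i)
  have hS : ∃ q : ℤ, (S : ℤ) = ((y % M : ℕ) : ℤ) + M * q := by
    obtain ⟨q, hq⟩ := crt_sum N y
    refine ⟨q + (y / M : ℕ), ?_⟩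
    have h1 : (y : ℤ) = M * (y / M : ℕ) + (y % M : ℕ) := by exact_mod_cast (Nat.div_add_mod y M).symm
    have h2 : (S : ℤ) = y + M * q := by
      have h3 : (S : ℤ) - y = M * q := hq
      linarith
    rw [h2]
    linear_combination h1
  obtain ⟨q, hq⟩ := hS
  let Cs : ℕ := ∑ i ∈ range (N + 1), c i
  have hQ : Q N (some j) k = Cs % Bq := by
    unfold Q
    congr 1
    refine Finset.sum_congr rfl fun i _ => ?_
    show BB N * ((k % gg N i * 4 ^ j * uu N i) % gg N i) / gg N i = _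
    rw [crt_w]
  have hlow : Cs * M ≤ Bq * S := by
    rw [Finset.sum_mul, Finset.mul_sum]
    refine Finset.sum_le_sum fun i hi => ?_
    have hiN : i ≤ N := Nat.lt_succ_iff.1 (Finset.mem_range.1 hi)
    have h1 : c i * gg N i ≤ Bq * w i := Nat.div_mul_le_self _ _
    calc c i * M = c i * gg N i * (M / gg N i) := by rw [mul_assoc, crt_mul N i hiN]
      _ ≤ Bq * w i * (M / gg N i) := Nat.mul_le_mul_right _ h1
      _ = _ := by ring
  have hhigh : Bq * S < (Cs + (N + 1)) * M := by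
    have h2 : (Cs + (N + 1)) * M = ∑ i ∈ range (N + 1), (c i + 1) * M := by
      rw [← Finset.sum_mul, Finset.sum_add_distrib, Finset.sum_const, Finset.card_range,
        smul_eq_mul, mul_one]
    rw [h2, Finset.mul_sum]
    refine Finset.sum_lt_sum_of_nonempty ⟨0, Finset.mem_range.2 (Nat.succ_pos N)⟩ fun i hi => ?_
    have hiN : i ≤ N := Nat.lt_succ_iff.1 (Finset.mem_range.1 hi)
    have h1 : Bq * w i < gg N i * (c i + 1) := Nat.lt_mul_div_succ _ (gg_pos N i)
    have h3 : 0 < M / gg N i := Nat.div_pos (Nat.le_of_dvd hMpos (gg_dvd N i hiN)) (gg_pos N i)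
    calc Bq * (w i * (M / gg N i)) = Bq * w i * (M / gg N i) := by ring
      _ < gg N i * (c i + 1) * (M / gg N i) := Nat.mul_lt_mul_of_pos_right h1 h3
      _ = (c i + 1) * (gg N i * (M / gg N i)) := by ring
      _ = (c i + 1) * M := by rw [crt_mul N i hiN]
  have hlow' : (Cs : ℤ) * M ≤ Bq * S := by exact_mod_cast hlow
  have hhigh' : (Bq : ℤ) * S < (Cs + (N + 1)) * M := by exact_mod_cast hhigh
  have hC : (Cs : ℤ) = Bq * (Cs / Bq : ℕ) + (Cs % Bq : ℕ) := by
    exact_mod_cast (Nat.div_add_mod Cs Bq).symm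
  rw [hQ]
  refine ⟨(Cs / Bq : ℕ) - q, ?_, ?_⟩
  · have h1 : (((Cs % Bq : ℕ) : ℤ) + Bq * ((Cs / Bq : ℕ) - q)) = Cs - Bq * q := by
      linear_combination -hC
    rw [h1]
    rw [hq] at hlow'
    nlinarith
  · have h1 : (((Cs % Bq : ℕ) : ℤ) + Bq * ((Cs / Bq : ℕ) - q)) = Cs - Bq * q := by
      linear_combination -hC
    rw [h1]
    rw [hq] at hhigh'
    nlinarith

end Pool.Agent.LinSched
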