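import Pool.Agent.Lib.MP_b03ab8_lc.DDefs

/-!
# Module D.Dfs: the short-circuit depth first search computes the truth value

PROOF. `climb_cons`: for `q : Fin (n + 1) → Bool`, `q' i = q i.succ`, and a label
`Fin.cons b x`: `climb q (Fin.cons b x) v` is `some i.succ` if `climb q' x v = some i`; and if
`climb q' x v = none` it is `some 0` if `b = false` and `q 0 ≠ v`, and `none` otherwise.
(`List.finRange_succ`: `finRange (n + 1) = 0 :: (finRange n).map Fin.succ`; the fold over the
mapped list started at `o` gives `o` iff the fold for `n` started at `none` gives `none`,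
prove it for an arbitrary list and start values.)

Embeddings `emb b : St n → St (n + 1)`: `act ↦ act`, `wait i ↦ wait i.succ`,
`fin v ↦ (if b = false ∧ q 0 ≠ v then wait 0 else fin v)`. Then
`climbS q (Fin.cons b x) v = emb b (climbS q' x v)`, and for every state `s`:
`dfs q f (emb b s) (Fin.cons b x) = emb b (dfs q' (fun x => f (Fin.cons b x)) s x)`: for `act`
by the last formula; for `wait i`: `(Fin.cons b x) i.succ = x i`; for `fin v`: `fin v` is
constant, and `wait 0` with `b = false` stays.

Theorem, induction on `n`. `n = 0`: `Sorted 0 l` says `l = x :: l'`; `climb` is `none`,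
`dfs q f act x = fin (f x)`, `x = Fin.elim0`, and `fin` is constant. Step: `l = l0' ++ l1'`. After
`l0'` the state is `emb false (fin v0)` with `v0 = qtruth n q' (fun x => f (Fin.cons false x))`
(fold over a mapped list, the commutation, induction hypothesis).
* `q 0 = v0`: the state is `fin v0` and stays; `qtruth (n + 1) q f = v0` (if `q 0 = true`:
  `true || _`; if `q 0 = false`: `false && _`).
* `q 0 ≠ v0`: the state is `wait 0`; `l1' = (Fin.cons true x) :: ...` is not empty (`Sorted n l1`
  implies `l1 ≠ []`, induction on `n`), and `dfs q f (wait 0) (Fin.cons true x) =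
  climbS ... = dfs q f act (Fin.cons true x)`. So the fold over `l1'` from `wait 0` equals the
  fold from `act = emb true act`, which is `emb true (fin v1) = fin v1`; and
  `qtruth = v1` (`q 0 = true`, `v0 = false`: `false || v1`; `q 0 = false`, `v0 = true`:
  `true && v1`).
-/

open Finset

namespace Pool.Agent.LinSched

private theorem fold_or {n : ℕ} (P : Fin n → Bool) (o : Option (Fin (n + 1)))
    (L : List (Fin n)) : ∀ o' : Option (Fin n),
    L.foldl (fun o i => if P i then some i.succ else o) ((o'.map Fin.succ).or o)
      = ((L.foldl (fun o i => if P i then some i else o) o').map Fin.succ).or o := by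
  induction L with
  | nil => intro o'; rfl
  | cons a L ih =>
    intro o'
    rw [List.foldl_cons, List.foldl_cons, ← ih]
    congr 1
    split_ifs <;> simp

private theorem climb_cons {n : ℕ} (q : Fin (n + 1) → Bool) (b v : Bool) (x : Fin n → Bool) :
    climb q (Fin.cons b x) v = ((climb (fun i => q i.succ) x v).map Fin.succ).or
      (if !b && (q 0 != v) then some 0 else none) := by
  unfold climb
  rw [List.finRange_succ, List.foldl_cons, List.foldl_map]
  simp only [Fin.cons_zero, Fin.cons_succ]
  have h := fold_or (fun i : Fin n => !x i && (q i.succ != v))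
    (if !b && (q 0 != v) then some 0 else none) (List.finRange n) none
  simp only [Option.map_none, Option.none_or] at h
  exact h

/-- the embedding of the states -/
private def emb {n : ℕ} (q0 b : Bool) : St n → St (n + 1)
  | .act => .act
  | .wait i => .wait i.succ
  | .fin v => if !b && (q0 != v) then .wait 0 else .fin v

private theorem climbS_cons {n : ℕ} (q : Fin (n + 1) → Bool) (b v : Bool) (x : Fin n → Bool) :
    climbS q (Fin.cons b x) v = emb (q 0) b (climbS (fun i => q i.succ) x v) := by
  unfold climbS
  rw [climb_cons]
  cases h : climb (fun i => q i.succ) x v with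
  | none =>
    simp only [Option.map_none, Option.none_or, emb]
    cases h2 : (!b && (q 0 != v)) <;> simp
  | some i => simp [emb]

private theorem dfs_cons {n : ℕ} (q : Fin (n + 1) → Bool) (f : (Fin (n + 1) → Bool) → Bool)
    (b : Bool) (s : St n) (x : Fin n → Bool) :
    dfs q f (emb (q 0) b s) (Fin.cons b x)
      = emb (q 0) b (dfs (fun i => q i.succ) (fun x => f (Fin.cons b x)) s x) := by
  cases s with
  | act => simp only [emb, dfs, climbS_cons]
  | wait i =>
    simp only [emb, dfs, Fin.cons_succ, climbS_cons]
    split_ifs <;> simp [emb]
  | fin v =>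
    simp only [dfs, emb]
    cases b <;> cases q 0 <;> cases v <;> simp

private theorem fold_cons {n : ℕ} (q : Fin (n + 1) → Bool) (f : (Fin (n + 1) → Bool) → Bool)
    (b : Bool) (l : List (Fin n → Bool)) : ∀ s : St n,
    (l.map (fun x => (Fin.cons b x : Fin (n + 1) → Bool))).foldl (dfs q f) (emb (q 0) b s)
      = emb (q 0) b (l.foldl (dfs (fun i => q i.succ) (fun x => f (Fin.cons b x))) s) := by
  induction l with
  | nil => intro s; rfl
  | cons a l ih =>
    intro s
    rw [List.map_cons, List.foldl_cons, List.foldl_cons, dfs_cons, ih]

private theorem sorted_ne : ∀ (n : ℕ) (l : List (Fin n → Bool)), Sorted n l → l ≠ [] := by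
  intro n
  induction n with
  | zero => intro l h; exact h
  | succ n ih =>
    rintro l ⟨l0, l1, h0, h1, rfl⟩ h
    have := ih l0 h0
    simp at h
    exact this h.1

private theorem fold_fin {n : ℕ} (q : Fin n → Bool) (f : (Fin n → Bool) → Bool) (v : Bool)
    (l : List (Fin n → Bool)) : l.foldl (dfs q f) (St.fin v) = St.fin v := by
  induction l with
  | nil => rfl
  | cons a l ih => rw [List.foldl_cons]; exact ih

theorem dfs_fold (n : ℕ) (q : Fin n → Bool) (f : (Fin n → Bool) → Bool)
    (l : List (Fin n → Bool)) (h : Sorted n l) :
    l.foldl (dfs q f) St.act = St.fin (qtruth n q f) := by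
  induction n with
  | zero =>
    cases l with
    | nil => exact absurd rfl (sorted_ne _ _ h)
    | cons a l =>
      rw [List.foldl_cons]
      have h1 : dfs q f St.act a = St.fin (qtruth 0 q f) := by
        have ha : a = Fin.elim0 := Subsingleton.elim _ _
        subst ha
        rfl
      rw [h1, fold_fin]
  | succ n ih =>
    obtain ⟨l0, l1, h0, h1, rfl⟩ := h
    rw [List.foldl_append]
    have e0 := fold_cons q f false l0 St.act
    rw [ih (fun i => q i.succ) (fun x => f (Fin.cons false x)) l0 h0] at e0
    have e1 := fold_cons q f true l1 St.act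
    rw [ih (fun i => q i.succ) (fun x => f (Fin.cons true x)) l1 h1] at e1
    have hact : ∀ b, emb (q 0) b (St.act : St n) = St.act := fun b => rfl
    rw [hact] at e0 e1
    rw [e0]
    simp only [emb, Bool.not_false, Bool.true_and, Bool.not_true, Bool.false_and] at e1 ⊢
    have hd : qtruth (n + 1) q f = if q 0 then
        qtruth n (fun i => q i.succ) (fun x => f (Fin.cons false x)) ||
        qtruth n (fun i => q i.succ) (fun x => f (Fin.cons true x))
      else
        qtruth n (fun i => q i.succ) (fun x => f (Fin.cons false x)) &&
        qtruth n (fun i => q i.succ) (fun x => f (Fin.cons true x)) := rfl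
    rw [hd]
    generalize qtruth n (fun i => q i.succ) (fun x => f (Fin.cons false x)) = v0 at *
    generalize qtruth n (fun i => q i.succ) (fun x => f (Fin.cons true x)) = v1 at *
    -- the fold over the second half from `wait 0`
    have hw : (l1.map (fun x => (Fin.cons true x : Fin (n + 1) → Bool))).foldl (dfs q f)
        (St.wait 0) = St.fin v1 := by
      cases l1 with
      | nil => exact absurd rfl (sorted_ne _ _ h1)
      | cons a l1 =>
        rw [List.map_cons, List.foldl_cons] at e1 ⊢
        have h2 : dfs q f (St.wait 0) (Fin.cons true a) = dfs q f St.act (Fin.cons true a) := by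
          simp [dfs]
        rw [h2]
        simpa using e1
    cases hq : q 0 <;> cases v0 <;> simp [fold_fin, hw]

end Pool.Agent.LinSched
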