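import Pool.Agent.Lib.MP_b03ab8_lc.DDefs

/-!
# Module D.Digit: valid time steps show the base 4 digits

PROOF. Let `B = 16 (N + 1)`, `y j = 4 ^ j k % M`. For `j ≤ n`: from `Approx` (with `z`) and
`0 ≤ y j < M`: `(A + B z) M ≤ B y < B M` gives `A + B z < B`, so `z ≤ 0`;
`0 ≤ B y < (A + B z + N + 1) M` gives `A + B z + N + 1 > 0`, and with `4 A < 3 B`,
`16 (N + 1) = B` this excludes `z ≤ -1`. So `z = 0`:
`A j M ≤ B y j < (A j + N + 1) M`.
Since `B ≤ 4 A j`, `M ≤ 4 y j`, for all `j ≤ n`. For `j < n` let `d = 4 y j / M`,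
`y (j + 1) = 4 y j % M` (as `4 ^ (j + 1) k = 4 * (4 ^ j k)`), `4 y j = d M + y (j + 1)`. `d ≥ 1`.
* `2 A j < B`: `4 B y j < (4 A j + 4 (N + 1)) M ≤ (2 B + B / 4) M`, so `4 * (4 y j) < 9 M`, so
  `d ≤ 2`, and `d = 2` would give `4 y (j + 1) < M`, a contradiction. `d = 1`.
* `B ≤ 2 A j`: `2 M ≤ 4 y j`, `d ≥ 2`; `4 A j < 3 B` gives `4 * (4 y j) < 13 M`, so `d ≤ 3`, and
  `d = 3` would give `4 y (j + 1) < M`. `d = 2`.
So `4 ^ (j + 1) k / M = 4 (4 ^ j k / M) + 1 + x j`, with `x j = [B ≤ 2 A j]`, and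
`4 ^ 0 k / M = 0`. By induction on `r ≤ n`:
`4 ^ r k / M = ∑ j ∈ range r, (1 + x j) 4 ^ (r - 1 - j)`; for `r = n` this is `code n x`
(`Finset.sum_range` / `Fin.sum_univ_castSucc`).
-/

open Finset

namespace Pool.Agent.LinSched

private theorem dg_approx {M N y A : ℕ} (hM : 0 < M) (hy : y < M)
    (hA : Approx M (16 * (N + 1)) N y A)
    (hv : 16 * (N + 1) ≤ 4 * A ∧ 4 * A < 3 * (16 * (N + 1))) :
    A * M ≤ 16 * (N + 1) * y ∧ 16 * (N + 1) * y < (A + (N + 1)) * M := by
  obtain ⟨z, h1, h2⟩ := hA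
  have hM' : (0 : ℤ) < M := by exact_mod_cast hM
  have hy' : (y : ℤ) < M := by exact_mod_cast hy
  have hy0 : (0 : ℤ) ≤ y := Int.natCast_nonneg _
  have hN0 : (0 : ℤ) ≤ N := Int.natCast_nonneg _
  have hA0 : (0 : ℤ) ≤ A := Int.natCast_nonneg _
  have hv1 : (16 * ((N : ℤ) + 1)) ≤ 4 * A := by exact_mod_cast hv.1
  have hv2 : 4 * (A : ℤ) < 3 * (16 * ((N : ℤ) + 1)) := by exact_mod_cast hv.2
  push_cast at h1 h2
  have h3 : ((A : ℤ) + 16 * (N + 1) * z) < 16 * (N + 1) := by
    have h4 : ((A : ℤ) + 16 * (N + 1) * z) * M < 16 * (N + 1) * M := by nlinarith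
    exact lt_of_mul_lt_mul_right h4 hM'.le
  have h5 : 0 < ((A : ℤ) + 16 * (N + 1) * z + (N + 1)) := by
    have h6 : 0 < ((A : ℤ) + 16 * (N + 1) * z + (N + 1)) * M := by nlinarith
    exact pos_of_mul_pos_left h6 hM'.le
  have hz : z = 0 := by
    have h7 : z < 1 := by
      by_contra hcon
      push Not at hcon
      nlinarith
    have h8 : -1 < z := by
      by_contra hcon
      push Not at hcon
      nlinarith
    omega
  rw [hz, mul_zero, add_zero] at h1 h2
  constructor
  · exact_mod_cast h1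
  · exact_mod_cast h2

private theorem dg_step {M N y y' A A' : ℕ} (hM : 0 < M) (hy : y < M) (hy' : y' = 4 * y % M)
    (hA : Approx M (16 * (N + 1)) N y A)
    (hv : 16 * (N + 1) ≤ 4 * A ∧ 4 * A < 3 * (16 * (N + 1)))
    (hA' : Approx M (16 * (N + 1)) N y' A')
    (hv' : 16 * (N + 1) ≤ 4 * A' ∧ 4 * A' < 3 * (16 * (N + 1))) :
    4 * y / M = 1 + (decide (16 * (N + 1) ≤ 2 * A)).toNat := by
  have hy'M : y' < M := by rw [hy']; exact Nat.mod_lt _ hM
  obtain ⟨h1, h2⟩ := dg_approx hM hy hA hv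
  obtain ⟨h1', h2'⟩ := dg_approx hM hy'M hA' hv'
  have hd : M * (4 * y / M) + y' = 4 * y := by
    rw [hy']
    exact Nat.div_add_mod _ _
  have hK : 0 < N + 1 := Nat.succ_pos N
  generalize N + 1 = K at *
  have e1 : M ≤ 4 * y' := by
    have h3 : 16 * K * M ≤ 16 * K * (4 * y') := by nlinarith
    exact Nat.le_of_mul_le_mul_left h3 (by positivity)
  generalize 4 * y / M = d at *
  by_cases hx : 16 * K ≤ 2 * A
  · rw [decide_eq_true hx]
    have e2 : M ≤ 2 * y := by
      have h3 : 16 * K * M ≤ 16 * K * (2 * y) := by nlinarith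
      exact Nat.le_of_mul_le_mul_left h3 (by positivity)
    have e3 : 16 * y < 13 * M := by
      have h3 : K * (16 * y) < K * (13 * M) := by nlinarith
      exact Nat.lt_of_mul_lt_mul_left h3
    show d = 2
    have e4 : d < 3 := by
      by_contra hcon
      push Not at hcon
      nlinarith
    have e5 : 1 < d := by
      by_contra hcon
      push Not at hcon
      nlinarith
    omega
  · rw [decide_eq_false hx]
    push Not at hx
    have e2 : M ≤ 4 * y := by
      have h3 : 16 * K * M ≤ 16 * K * (4 * y) := by nlinarith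
      exact Nat.le_of_mul_le_mul_left h3 (by positivity)
    have e3 : 16 * y < 9 * M := by
      have h3 : K * (16 * y) < K * (9 * M) := by nlinarith
      exact Nat.lt_of_mul_lt_mul_left h3
    show d = 1
    have e4 : d < 2 := by
      by_contra hcon
      push Not at hcon
      nlinarith
    have e5 : 0 < d := by
      by_contra hcon
      push Not at hcon
      have : d = 0 := by omega
      rw [this, mul_zero, zero_add] at hd
      omega
    omega

theorem digit_code (n N M k : ℕ) (A : ℕ → ℕ) (hM : 0 < M) (hk : k < M)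
    (hA : ∀ j ≤ n, Approx M (16 * (N + 1)) N (4 ^ j * k % M) (A j))
    (hv : ∀ j ≤ n, 16 * (N + 1) ≤ 4 * A j ∧ 4 * A j < 3 * (16 * (N + 1))) :
    4 ^ n * k / M = code n (fun j => decide (16 * (N + 1) ≤ 2 * A j)) := by
  have key : ∀ r ≤ n, 4 ^ r * k / M = ∑ j ∈ range r,
      (1 + (decide (16 * (N + 1) ≤ 2 * A j)).toNat) * 4 ^ (r - 1 - j) := by
    intro r
    induction r with
    | zero =>
      intro _
      rw [pow_zero, one_mul, Nat.div_eq_of_lt hk, range_zero, sum_empty]
    | succ r ih =>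
      intro hr
      have h1 := ih (by omega)
      have h2 := dg_step (y := 4 ^ r * k % M) (y' := 4 ^ (r + 1) * k % M) hM (Nat.mod_lt _ hM)
        (by rw [pow_succ, Nat.mul_mod_mod]; congr 1; ring) (hA r (by omega)) (hv r (by omega))
        (hA (r + 1) hr) (hv (r + 1) hr)
      have h3 : 4 ^ (r + 1) * k / M = 4 * (4 ^ r * k / M) + 4 * (4 ^ r * k % M) / M := by
        have h4 : 4 ^ (r + 1) * k = 4 * (4 ^ r * k % M) + M * (4 * (4 ^ r * k / M)) := by
          have h5 := Nat.div_add_mod (4 ^ r * k) M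
          rw [pow_succ]
          nlinarith
        rw [h4, Nat.add_mul_div_left _ _ hM, add_comm]
      rw [h3, h2, h1, sum_range_succ, mul_sum]
      congr 1
      · refine sum_congr rfl fun j hj => ?_
        have hj' := mem_range.1 hj
        have h5 : r + 1 - 1 - j = (r - 1 - j) + 1 := by omega
        rw [h5, pow_succ]
        ring
      · simp
  have h1 := key n le_rfl
  rw [h1, Finset.sum_range]
  rfl

end Pool.Agent.LinSched
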