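import Pool.Agent.Lib.MP_b03ab8_lc.D.Crt

/-!
# Module D.EndQ: the end query; the period is large

PROOF of `end_query`. `qc N none i r ≤ 1`, so the sum is at most `N + 1 < BB N` and `Q = 0` iff
all summands vanish, i.e. `gg N i ∣ k % gg N i + 1` for all `i ≤ N`, i.e. `gg N i ∣ k + 1`. As the
`gg N i` are pairwise coprime, this is the case iff their product `MM N` divides `k + 1`
(`Finset.prod_dvd_of_coprime`; conversely `gg_dvd`).

PROOF of `MM_large`. Let `N = 4 n + 8`, `m = 2 n + 4`. `Nat.centralBinom m = (2 m).choose m =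
N.choose m`; it divides `MM N`, or at least is `≤ MM N`: `centralBinom m = ∏ over the
primes p ≤ N of p ^ (factorization)` and the factorization of `N.choose m` at `p` is at most
`Nat.log p N` (`Nat.factorization_choose_le_log`); primes `> N` do not occur
(`Nat.prod_pow_factorization_choose` or `Nat.prod_pow_factorization_centralBinom`).
`Nat.four_pow_le_two_mul_self_mul_centralBinom m`: `4 ^ m ≤ 2 m centralBinom m`. So
`4 ^ (2 n + 4) ≤ (4 n + 8) MM N`, and `8 * 4 ^ n * (4 n + 8) ≤ 4 ^ (2 n + 4)` (as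
`n + 2 ≤ 8 * 4 ^ n`: `8 * 4 ^ n * 4 (n + 2) ≤ 256 * 4 ^ n * 4 ^ n`), so
`8 * 4 ^ n ≤ MM N`.
-/

open Finset

namespace Pool.Agent.LinSched

theorem end_query (N k : ℕ) : Q N none k = 0 ↔ MM N ∣ k + 1 := by
  have hqc : ∀ i r, qc N none i r = if gg N i ∣ r + 1 then 0 else 1 := fun i r => rfl
  have hlt : ∑ i ∈ range (N + 1), qc N none i (k % gg N i) < BB N := by
    have h1 : ∑ i ∈ range (N + 1), qc N none i (k % gg N i) ≤ ∑ _i ∈ range (N + 1), 1 := by
      refine Finset.sum_le_sum fun i _ => ?_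
      rw [hqc]
      split_ifs <;> omega
    rw [Finset.sum_const, Finset.card_range, smul_eq_mul, mul_one] at h1
    unfold BB
    omega
  have hQ : Q N none k = ∑ i ∈ range (N + 1), qc N none i (k % gg N i) := Nat.mod_eq_of_lt hlt
  rw [hQ, Finset.sum_eq_zero_iff]
  have hiff : ∀ i, qc N none i (k % gg N i) = 0 ↔ gg N i ∣ k + 1 := by
    intro i
    rw [hqc]
    have h1 : gg N i ∣ k % gg N i + 1 ↔ gg N i ∣ k + 1 := by
      have h2 : k + 1 = gg N i * (k / gg N i) + (k % gg N i + 1) := by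
        have := Nat.div_add_mod k (gg N i)
        omega
      rw [h2]
      exact (Nat.dvd_add_right (Dvd.intro _ rfl)).symm
    rw [← h1]
    split_ifs with h
    · simp [h]
    · simp [h]
  simp only [hiff]
  constructor
  · intro h
    refine Finset.prod_dvd_of_isRelPrime ?_ h
    intro i _ j _ hij
    exact Nat.coprime_iff_isRelPrime.1 (gg_coprime N i j hij)
  · intro h i hi
    exact (gg_dvd N i (by rw [Finset.mem_range] at hi; omega)).trans h

theorem MM_large (n : ℕ) : 8 * 4 ^ n ≤ MM (4 * n + 8) := by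
  have h1 : (2 * n + 4).centralBinom ≤ MM (4 * n + 8) := by
    rw [← Nat.prod_pow_factorization_centralBinom (2 * n + 4)]
    unfold MM
    rw [show 2 * (2 * n + 4) + 1 = 4 * n + 8 + 1 by ring]
    refine Finset.prod_le_prod' fun p _ => ?_
    unfold gg
    split_ifs with hp
    · refine Nat.pow_le_pow_right hp.pos ?_
      have h2 := Nat.factorization_choose_le_log (p := p) (n := 4 * n + 8) (k := 2 * n + 4)
      rw [Nat.centralBinom_eq_two_mul_choose, show 2 * (2 * n + 4) = 4 * n + 8 by ring]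
      exact h2
    · rw [Nat.factorization_eq_zero_of_not_prime _ hp, pow_zero]
  have h2 := Nat.four_pow_le_two_mul_self_mul_centralBinom (2 * n + 4) (by omega)
  have h3 : 4 ^ (2 * n + 4) ≤ (4 * n + 8) * MM (4 * n + 8) := by
    refine h2.trans ?_
    rw [show 2 * (2 * n + 4) = 4 * n + 8 by ring]
    exact Nat.mul_le_mul_left _ h1
  by_contra hcon
  push Not at hcon
  have h4 : (4 * n + 8) * MM (4 * n + 8) < (4 * n + 8) * (8 * 4 ^ n) :=
    Nat.mul_lt_mul_of_pos_left hcon (by omega)
  have h5 : n + 2 ≤ 8 * 4 ^ n := by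
    have : n < 4 ^ n := Nat.lt_pow_self (by norm_num)
    have h6 : 1 ≤ 4 ^ n := Nat.one_le_pow _ _ (by norm_num)
    omega
  have h6 : (4 * n + 8) * (8 * 4 ^ n) ≤ 4 ^ (2 * n + 4) := by
    have h7 : 4 ^ (2 * n + 4) = (32 * 4 ^ n) * (8 * 4 ^ n) := by
      rw [pow_add, two_mul, pow_add]
      ring
    rw [h7]
    refine Nat.mul_le_mul_right _ ?_
    omega
  omega

end Pool.Agent.LinSched
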