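import Pool.Agent.Lib.MP_b03ab8_lc.DDefs

/-!
# Module D.Fold: the effect of the program in one time step

PROOF. `QBF.fold Φ k m` is a fold over the list `Φ.ops` (`List.foldl_append`,
`List.foldl_map`). Let `x = label Φ.n Φ.N k`, so for `i : Fin Φ.n` the test
`decide (BB ≤ 2 * Q (some i) k)` is `x i`. Compute block by block, for a memory
`m = ⟨s, v, tr, cl, al, o, b⟩`:
* `valid` block (fold over `List.range (n + 1)`): `v` becomes `v && valid Φ.n Φ.N k`
  (for an arbitrary list `L` of numbers: `v && L.all ...`).
* `trig` block: `tr` becomes `tr || any_i (decide (s = wait i) && x i)`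
  (`(List.finRange n).any`).
* one clause `c`: the literals change `cl` to `cl || c.any (fun l => x l.1 == l.2)`; `endc`
  gives `all := al && that`, `cls := false`. All clauses, started with `cl = false`:
  `all := al && Φ.cl.all ...`, i.e. `al && Φ.matrix x`, `cls = false`.
* `climb` block: `out` becomes the fold of `climb q x al` started with `o` (for `o = none`:
  `climb q x al`); `all` does not change.
* `fin`.
Started with `Mem.start s b = ⟨s, true, false, false, true, none, b⟩` we get before `fin`:
`⟨s, valid, any_i (decide (s = wait i) && x i), false, matrix x, climb q x (matrix x), b⟩`;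
`newst` of it is `climbS q x (matrix x)` if `valid` and (`s = act` or `s = wait i` with `x i`)
and `s` otherwise; i.e. `dfs q matrix s x` if `valid` and `s` otherwise (cases on `s`; for
`s = wait i` the `any` is `x i`). `fin` resets the flags.
-/

/-!
# Module D.Fold: the effect of the program in one time step

PROOF. `QBF.fold Φ k m` is a fold over the list `Φ.ops` (`List.foldl_append`,
`List.foldl_map`). Let `x = label Φ.n Φ.N k`, so for `i : Fin Φ.n` the test
`decide (BB ≤ 2 * Q (some i) k)` is `x i`. Compute block by block, for a memory
`m = ⟨s, v, tr, cl, al, o, b⟩`: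
* `valid` block (fold over `List.range (n + 1)`): `v` becomes `v && valid Φ.n Φ.N k`
  (for an arbitrary list `L` of numbers: `v && L.all ...`).
* `trig` block: `tr` becomes `tr || any_i (decide (s = wait i) && x i)`
  (`(List.finRange n).any`).
* one clause `c`: the literals change `cl` to `cl || c.any (fun l => x l.1 == l.2)`; `endc`
  gives `all := al && that`, `cls := false`. All clauses, started with `cl = false`:
  `all := al && Φ.cl.all ...`, i.e. `al && Φ.matrix x`, `cls = false`.
* `climb` block: `out` becomes the fold of `climb q x al` started with `o` (for `o = none`: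
  `climb q x al`); `all` does not change.
* `fin`.
Started with `Mem.start s b = ⟨s, true, false, false, true, none, b⟩` we get before `fin`:
`⟨s, valid, any_i (decide (s = wait i) && x i), false, matrix x, climb q x (matrix x), b⟩`;
`newst` of it is `climbS q x (matrix x)` if `valid` and (`s = act` or `s = wait i` with `x i`)
and `s` otherwise; i.e. `dfs q matrix s x` if `valid` and `s` otherwise (cases on `s`; for
`s = wait i` the `any` is `x i`). `fin` resets the flags.
-/

open Finset

namespace Pool.Agent.LinSched

section
variable {n : ℕ} (q : Fin n → Bool) (N k : ℕ)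

/-- one instruction -/
private abbrev fS (m : Mem n) (o : Op n) : Mem n := o.upd q (BB N) m (Q N o.query k)

private theorem fold_valid (L : List ℕ) : ∀ m : Mem n, (L.map Op.valid).foldl (fS q N k) m =
    { m with valid := (m.valid && (L.all (fun j =>
        decide (BB N ≤ 4 * Q N (some j) k ∧ 4 * Q N (some j) k < 3 * BB N)))) } := by
  induction L with
  | nil => intro m; simp
  | cons j L ih =>
    intro m
    rw [List.map_cons, List.foldl_cons, ih]
    simp only [fS, Op.upd, Op.query, List.all_cons, Bool.and_assoc]
    rfl

private theorem fold_trig (L : List (Fin n)) : ∀ m : Mem n,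
    (L.map Op.trig).foldl (fS q N k) m =
    { m with trig := (m.trig || (L.any (fun i => decide (m.st = St.wait i) && label n N k i))) } := by
  induction L with
  | nil => intro m; simp
  | cons j L ih =>
    intro m
    rw [List.map_cons, List.foldl_cons, ih]
    simp [fS, Op.upd, Op.query, Bool.or_assoc, label]
    try rfl

private theorem fold_lit (c : List (Fin n × Bool)) : ∀ m : Mem n,
    (c.map fun l => Op.lit l.1 l.2).foldl (fS q N k) m =
    { m with cls := (m.cls || (c.any (fun l => label n N k l.1 == l.2))) } := by
  induction c with
  | nil => intro m; simp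
  | cons l c ih =>
    intro m
    rw [List.map_cons, List.foldl_cons, ih]
    simp [fS, Op.upd, Op.query, Bool.or_assoc, label]
    try rfl

private theorem fold_cls (cl : List (List (Fin n × Bool))) : ∀ m : Mem n, m.cls = false →
    (cl.flatMap fun c => c.map (fun l => Op.lit l.1 l.2) ++ [Op.endc]).foldl (fS q N k) m =
    { m with all := (m.all && (cl.all (fun c => c.any (fun l => label n N k l.1 == l.2)))) } := by
  induction cl with
  | nil => intro m hm; simp
  | cons c cl ih =>
    intro m hm
    rw [List.flatMap_cons, List.foldl_append, List.foldl_append, fold_lit, List.foldl_cons,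
      List.foldl_nil, ih _ rfl]
    simp only [fS, Op.upd, hm, Bool.false_or, List.all_cons, Bool.and_assoc]

private theorem fold_climb (L : List (Fin n)) : ∀ m : Mem n,
    (L.map Op.climb).foldl (fS q N k) m =
    { m with out := (L.foldl (fun o i => if !label n N k i && (q i != m.all) then some i else o)
        m.out) } := by
  induction L with
  | nil => intro m; simp
  | cons j L ih =>
    intro m
    have e : fS q N k m (Op.climb j) =
        { m with out := (if !label n N k j && (q j != m.all) then some j else m.out) } := by
      have e0 : fS q N k m (Op.climb j) =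
          if !label n N k j && (q j != m.all) then { m with out := some j } else m := rfl
      rw [e0]
      cases (!label n N k j && (q j != m.all)) <;> rfl
    rw [List.map_cons, List.foldl_cons, ih, List.foldl_cons, e]

end

theorem fold_eq (Φ : QBF) (k : ℕ) (s : St Φ.n) (b : Bool) :
    Φ.fold k (Mem.start s b) =
      let s' := if valid Φ.n Φ.N k then dfs Φ.q Φ.matrix s (label Φ.n Φ.N k) else s
      if Q Φ.N none k = 0 then Mem.start St.act (decide (s' = St.fin true))
      else Mem.start s' false := by
  set x := label Φ.n Φ.N k with hx
  have h1 : Φ.fold k (Mem.start s b) = fS Φ.q Φ.N k ⟨s, valid Φ.n Φ.N k,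
      (List.finRange Φ.n).any fun i => decide (s = St.wait i) && x i, false, Φ.matrix x,
      climb Φ.q x (Φ.matrix x), b⟩ Op.fin := by
    unfold QBF.fold
    show Φ.ops.foldl (fS Φ.q Φ.N k) (Mem.start s b) = _
    unfold QBF.ops
    rw [List.foldl_append, List.foldl_append, List.foldl_append, List.foldl_append,
      fold_valid, fold_trig, fold_cls _ _ _ _ _ rfl, fold_climb, List.foldl_cons, List.foldl_nil]
    simp only [Mem.start, Bool.true_and, Bool.false_or]
    rfl
  have h2 : (⟨s, valid Φ.n Φ.N k,
      (List.finRange Φ.n).any fun i => decide (s = St.wait i) && x i, false, Φ.matrix x,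
      climb Φ.q x (Φ.matrix x), b⟩ : Mem Φ.n).newst =
      if valid Φ.n Φ.N k then dfs Φ.q Φ.matrix s x else s := by
    unfold Mem.newst
    by_cases hv : valid Φ.n Φ.N k = true
    · simp only [hv, Bool.true_and, if_true]
      cases s with
      | act => simp [dfs, climbS]
      | wait i =>
        have h3 : ((List.finRange Φ.n).any fun j =>
            decide ((St.wait i : St Φ.n) = St.wait j) && x j) = x i := by
          rw [Bool.eq_iff_iff, List.any_eq_true]
          constructor
          · rintro ⟨j, -, hj⟩
            simp only [Bool.and_eq_true, decide_eq_true_eq, St.wait.injEq] at hj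
            rw [hj.1]
            exact hj.2
          · intro h
            exact ⟨i, List.mem_finRange i, by simp [h]⟩
        rw [h3]
        simp [dfs, climbS]
      | fin v => simp [dfs]
    · simp only [Bool.not_eq_true] at hv
      simp [hv]
  rw [h1]
  simp only [fS, Op.upd, Op.query, h2]

end Pool.Agent.LinSched
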