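import Pool.Agent.Lib.MP_b03ab8_lc.D.Traj
import Pool.Agent.Lib.MP_b03ab8_lc.C.Freq
import Pool.Agent.Lib.MP_b03ab8_lc.C.Size

/-!
# Module D.Hard: the reduction from quantified Boolean formulas, assembled

PROOF. Everything except the size and the bounds of the integers is immediate from `CA_good`
and the theorems of `C.Freq`.

Size: `graph_size` with `P = 5120 X ^ 3`, `X = Φ.len + 2 ≥ 2`. `ops.length = (n + 1) + n +
∑ (c.length + 1) + n + 1 ≤ 3 X` (`List.length_flatMap`), `N + 1 = 4 n + 9 ≤ 5 X` (`n ≤ len`), so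
`L ≤ 15 X ^ 2 ≤ P`; `card (Mem n) = (n + 3) * 2 * 2 * 2 * 2 * (n + 1) * 2` (`Fintype.card_congr
(Mem.equiv n)`) `≤ 32 (X + 1) X ≤ 64 X ^ 2`, `BB N = 16 (N + 1) ≤ 80 X`, so
`card State ≤ 5120 X ^ 3`; `gg N i ≤ N` for `i ≤ N` (if `i` is prime, `Nat.pow_log_le_self`;
otherwise it is `1 ≤ N`).

Integers: all arcs: `α ∈ {1, gg N i}`, `h, h' ∈ {0, 1, 2, r - g, r - g + 1}` with `r < g ≤ N`.
-/

open Finset

namespace Pool.Agent.LinSched

private theorem gg_le {N i : ℕ} (hN : 1 ≤ N) : gg N i ≤ N := by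
  unfold gg
  split_ifs with h
  · exact Nat.pow_log_le_self i (by omega)
  · exact hN

private theorem card_mem (n : ℕ) : Fintype.card (Mem n) = 32 * ((n + 3) * (n + 1)) := by
  rw [Fintype.card_congr (Mem.equiv n)]
  simp only [Fintype.card_prod, Fintype.card_option, Fintype.card_sum, Fintype.card_fin,
    Fintype.card_bool]
  ring

private theorem ops_len (Φ : QBF) : Φ.ops.length ≤ 3 * (Φ.len + 2) := by
  unfold QBF.ops QBF.len
  have h : ∀ cl : List (List (Fin Φ.n × Bool)),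
      (cl.flatMap fun c => c.map (fun l => Op.lit l.1 l.2) ++ [Op.endc]).length =
        (cl.map fun c => c.length + 1).sum := by
    intro cl
    induction cl with
    | nil => simp
    | cons c cl ih => simp only [List.flatMap_cons, List.length_append, ih, List.map_cons,
        List.sum_cons, List.length_map, List.length_singleton]
  simp only [List.length_append, List.length_map, List.length_range, List.length_finRange, h,
    List.length_singleton]
  omega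

theorem hard_size (Φ : QBF) : Φ.graph.size ≤ 100 * (5120 * (Φ.len + 2) ^ 3) ^ 5 := by
  have hn : Φ.n ≤ Φ.len := by unfold QBF.len; omega
  have hN : Φ.N + 1 ≤ 5 * (Φ.len + 2) := by unfold QBF.N; omega
  generalize hX : Φ.len + 2 = X at *
  have hX2 : 2 ≤ X := by omega
  have hX3 : X ^ 2 ≤ X ^ 3 := Nat.pow_le_pow_right (by omega) (by omega)
  have hX1 : X ≤ X ^ 3 := Nat.le_self_pow (by omega) X
  have hops := ops_len Φ
  rw [hX] at hops
  refine graph_size Φ.CA (5120 * X ^ 3) ?_ ?_ ?_ ?_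
  · omega
  · have : Φ.CA.L = Φ.ops.length * (Φ.N + 1) := rfl
    rw [this]
    calc Φ.ops.length * (Φ.N + 1) ≤ (3 * X) * (5 * X) := Nat.mul_le_mul hops hN
      _ = 15 * X ^ 2 := by ring
      _ ≤ 5120 * X ^ 3 := by omega
  · have h1 : Fintype.card Φ.State = Fintype.card (Mem Φ.n) * (16 * (Φ.N + 1)) := by
      change Fintype.card (Mem Φ.n × Fin (BB Φ.N)) = _
      rw [Fintype.card_prod, Fintype.card_fin]; rfl
    rw [h1, card_mem]
    have h2 : (Φ.n + 3) * (Φ.n + 1) ≤ (2 * X) * X := Nat.mul_le_mul (by omega) (by omega)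
    calc 32 * ((Φ.n + 3) * (Φ.n + 1)) * (16 * (Φ.N + 1))
        ≤ 32 * ((2 * X) * X) * (16 * (5 * X)) :=
          Nat.mul_le_mul (Nat.mul_le_mul_left _ h2) (Nat.mul_le_mul_left _ hN)
      _ = 5120 * X ^ 3 := by ring
  · intro l _
    have : Φ.CA.g l = gg Φ.N (l % (Φ.N + 1)) := rfl
    rw [this]
    have h2 : gg Φ.N (l % (Φ.N + 1)) ≤ Φ.N := gg_le (by unfold QBF.N; omega)
    omega

theorem hard_integers (Φ : QBF) :
    ∀ e ∈ Φ.graph.arcs, e.α ≤ Φ.N ∧ e.α' ≤ Φ.N ∧ e.h.natAbs ≤ Φ.N ∧ e.h'.natAbs ≤ Φ.N := by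
  have hN : 8 ≤ Φ.N := by unfold QBF.N; omega
  have hg : ∀ l, Φ.CA.g l ≤ Φ.N := fun l =>
    gg_le (by omega)
  intro e he
  have he' : e ∈ Φ.CA.arcs := he
  unfold CA.arcs at he'
  simp only [List.mem_append, List.mem_map, List.mem_flatMap, List.mem_singleton,
    List.mem_range] at he'
  rcases he' with (((⟨u, _, rfl⟩ | ⟨u, _, rfl⟩) | ⟨u, _, rfl⟩) | rfl) | ⟨q, _, r, hr, rfl⟩
  · refine ⟨?_, ?_, ?_, ?_⟩ <;> simp <;> omega
  · refine ⟨?_, ?_, ?_, ?_⟩ <;> simp <;> omega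
  · refine ⟨?_, ?_, ?_, ?_⟩ <;> simp <;> omega
  · refine ⟨?_, ?_, ?_, ?_⟩ <;> simp <;> omega
  · have h1 := hg q.1
    unfold CA.rd
    split_ifs
    · refine ⟨h1, h1, ?_, ?_⟩ <;> dsimp only <;> omega
    · refine ⟨h1, h1, ?_, ?_⟩ <;> dsimp only <;> omega
    · refine ⟨h1, h1, ?_, ?_⟩ <;> dsimp only <;> omega

theorem hard_main (Φ : QBF) :
    Φ.graph.Consistent ∧ Φ.graph.NonReentrant ∧ Φ.graph.StronglyConnected ∧
      Φ.graph.Balanced ∧ (∀ u, Φ.graph.p u = 1) ∧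
      ∀ u, Φ.graph.HasFrequency u
        ((MM Φ.N : ℝ) / (Φ.CA.L * MM Φ.N + Φ.truth.toNat : ℕ)) :=
  ⟨graph_consistent Φ.CA _ _ (CA_good Φ), graph_nonReentrant Φ.CA,
    graph_stronglyConnected Φ.CA, graph_balanced Φ.CA, fun _ => rfl,
    fun u => graph_hasFrequency Φ.CA _ _ (CA_good Φ) u⟩

end Pool.Agent.LinSched
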