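import Pool.Agent.Lib.MP_b03ab8_lc.DDefs

/-!
# Module D.Label: every label occurs

PROOF. Let `U = code n x`, `B = 16 (N + 1)`. `U < 4 ^ n` (digits `≤ 2`: `code n x ≤ 4 ^ n - 1`;
more precisely `3 U ≤ 2 (4 ^ n - 1)`). Let `k` be the least natural number with
`(16 U + 5) M ≤ 16 * 4 ^ n k`. Then `16 * 4 ^ n k < (16 U + 5) M + 16 * 4 ^ n
≤ (16 U + 5) M + 2 M` (`8 * 4 ^ n ≤ M`), so with `y n = 4 ^ n k - U M`:
`5 M ≤ 16 y n < 7 M`, in particular `0 ≤ y n < M`, `U = 4 ^ n k / M`, `y n = 4 ^ n k % M`, and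
`4 ^ n k < (U + 1) M ≤ 4 ^ n M` gives `k < M`.
Let `y j = 4 ^ j k % M`, `D j = 4 ^ j k / M`. `4 * (4 ^ j k) = 4 ^ (j + 1) k`, so
`4 y j = (D (j + 1) - 4 D j) M + y (j + 1)` and `d j = D (j + 1) - 4 D j ∈ {0, 1, 2, 3}`, and
`D n = U`, `D 0 = 0`; so the `d j` are the base `4` digits of `U`, `d j = 1 + x j` (uniqueness of
the digits: both `∑ d j 4 ^ (n - 1 - j)` and `∑ (1 + x j) 4 ^ (n - 1 - j)` equal `U`; a
convenient way is downward induction: `D j = U_j` where `U_j = ∑_{i < j} (1 + x i) 4 ^ (j - 1 - i)`: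
`D j = D (j + 1) / 4` and `U_j = U_{j + 1} / 4`).
Bounds: by downward induction on `j ≤ n`: `5 M ≤ 16 y j < 11 M`, and for `j < n`:
`x j = false → 5 M ≤ 16 y j < 7 M`, `x j = true → 9 M ≤ 16 y j < 11 M`
(`4 y j = (1 + x j) M + y (j + 1)`; `16 * 4 y j ≥ 16 M + 5 M ≥ 4 * 5 M` and
`< 16 M + 11 M ≤ 4 * 7 M`; `32 M + 5 M ≥ 4 * 9 M`, `32 M + 11 M ≤ 4 * 11 M`).
Finally let `A` be given, `A j < B` and `Approx` with `z`. From
`(A + B z) M ≤ B y j`, `16 y j < 11 M`: `16 (A + B z) < 11 B`. From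
`B y j < (A + B z + N + 1) M`, `16 y j ≥ 5 M`: `5 B < 16 (A + B z) + B`, so
`4 B < 16 (A + B z)`. As `0 ≤ A < B`: `z = 0`, and `B < 4 A`, `16 A < 11 B < 12 B`: valid. For
`x j = false`: `16 A < 7 B < 8 B`, so not `B ≤ 2 A`. For `x j = true`: `9 B < 16 A + B`, so
`B < 2 A`.
-/

open Finset

namespace Pool.Agent.LinSched

/-- the digit number `j` -/
private def labX {n : ℕ} (x : Fin n → Bool) (j : ℕ) : ℕ :=
  1 + if h : j < n then (x ⟨j, h⟩).toNat else 0

/-- the number with the first `j` digits -/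
private def labU {n : ℕ} (x : Fin n → Bool) : ℕ → ℕ
  | 0 => 0
  | j + 1 => 4 * labU x j + labX x j

private theorem labX_le {n : ℕ} (x : Fin n → Bool) (j : ℕ) : labX x j ≤ 2 := by
  unfold labX
  split_ifs with h
  · have := Bool.toNat_le (x ⟨j, h⟩)
    omega
  · omega

private theorem labU_lt {n : ℕ} (x : Fin n → Bool) : ∀ j, labU x j < 4 ^ j
  | 0 => by simp [labU]
  | j + 1 => by
    have h1 := labU_lt x j
    have h2 := labX_le x j
    show 4 * labU x j + labX x j < 4 ^ (j + 1)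
    rw [pow_succ]
    omega

private theorem lab_arith {N M y a : ℕ} (hM : 0 < M) (ha : a < 16 * (N + 1))
    (hap : Approx M (16 * (N + 1)) N y a) (h1 : 5 * M ≤ 16 * y) (h2 : 16 * y < 11 * M) :
    (∀ lo : ℕ, lo * M ≤ 16 * y → lo * (16 * (N + 1)) < 16 * a + 16 * (N + 1)) ∧
      ∀ hi : ℕ, 16 * y < hi * M → 16 * a < hi * (16 * (N + 1)) := by
  obtain ⟨z, hz1, hz2⟩ := hap
  have hM' : (0 : ℤ) < M := by exact_mod_cast hM
  obtain ⟨B, hB⟩ : ∃ B : ℤ, B = ((16 * (N + 1) : ℕ) : ℤ) := ⟨_, rfl⟩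
  have hBN : B = 16 * ((N : ℤ) + 1) := by rw [hB]; push_cast; ring
  have hB0 : 0 < B := by
    have : (0 : ℤ) ≤ N := Int.natCast_nonneg N
    omega
  rw [← hB] at hz1 hz2
  have ha' : (a : ℤ) < B := by rw [hB]; exact_mod_cast ha
  have ha0 : (0 : ℤ) ≤ a := Int.natCast_nonneg a
  have h1' : (5 : ℤ) * M ≤ 16 * y := by exact_mod_cast h1
  have h2' : (16 : ℤ) * y < 11 * M := by exact_mod_cast h2
  have hlo : ∀ lo : ℤ, lo * M ≤ 16 * y → lo * B < 16 * (a + B * z) + B := by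
    intro lo h
    have h3 : lo * B * M < (16 * (a + B * z) + B) * M := by
      calc lo * B * M = B * (lo * M) := by ring
        _ ≤ B * (16 * y) := mul_le_mul_of_nonneg_left h hB0.le
        _ = 16 * (B * y) := by ring
        _ < 16 * ((a + B * z + ((N : ℤ) + 1)) * M) := by linarith
        _ = (16 * (a + B * z) + 16 * ((N : ℤ) + 1)) * M := by ring
        _ = (16 * (a + B * z) + B) * M := by rw [← hBN]
    exact lt_of_mul_lt_mul_right h3 hM'.le
  have hhi : ∀ hi : ℤ, 16 * y < hi * M → 16 * (a + B * z) < hi * B := by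
    intro hi h
    have h3 : 16 * (a + B * z) * M < hi * B * M := by
      calc 16 * (a + B * z) * M = 16 * ((a + B * z) * M) := by ring
        _ ≤ 16 * (B * y) := by linarith
        _ = B * (16 * y) := by ring
        _ < B * (hi * M) := mul_lt_mul_of_pos_left h hB0
        _ = hi * B * M := by ring
    exact lt_of_mul_lt_mul_right h3 hM'.le
  have h5 := hlo 5 h1'
  have h11 := hhi 11 h2'
  have hz : z = 0 := by
    have hz1 : z < 1 := by
      by_contra hcon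
      push Not at hcon
      have : B * 1 ≤ B * z := mul_le_mul_of_nonneg_left hcon hB0.le
      linarith
    have hz2 : -1 < z := by
      by_contra hcon
      push Not at hcon
      have : B * z ≤ B * (-1) := mul_le_mul_of_nonneg_left hcon hB0.le
      linarith
    omega
  subst hz
  refine ⟨fun lo h => ?_, fun hi h => ?_⟩
  · have h3 := hlo lo (by exact_mod_cast h)
    rw [mul_zero, add_zero, hB] at h3
    exact_mod_cast h3
  · have h3 := hhi hi (by exact_mod_cast h)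
    rw [mul_zero, add_zero, hB] at h3
    exact_mod_cast h3

private theorem lab_down {n M k : ℕ} (x : Fin n → Bool)
    (h1 : (16 * labU x n + 5) * M ≤ 16 * 4 ^ n * k)
    (h2 : 16 * 4 ^ n * k < (16 * labU x n + 5) * M + 2 * M) :
    ∀ d, d ≤ n → ∃ y, 4 ^ (n - d) * k = labU x (n - d) * M + y ∧ 5 * M ≤ 16 * y ∧
      16 * y < 11 * M ∧ ∀ h : n - d < n, (x ⟨n - d, h⟩ = true → 9 * M ≤ 16 * y) ∧
        (x ⟨n - d, h⟩ = false → 16 * y < 7 * M)
  | 0, _ => by
    rw [Nat.sub_zero]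
    obtain ⟨t, ht⟩ : ∃ t, t = 4 ^ n * k := ⟨_, rfl⟩
    obtain ⟨u, hu⟩ : ∃ u, u = labU x n * M := ⟨_, rfl⟩
    have h3 : 16 * 4 ^ n * k = 16 * t := by rw [ht]; ring
    have h4 : (16 * labU x n + 5) * M = 16 * u + 5 * M := by rw [hu]; ring
    rw [h3, h4] at h1 h2
    rw [← ht, ← hu]
    refine ⟨t - u, by omega, by omega, by omega, fun h => absurd h (lt_irrefl n)⟩
  | d + 1, hd => by
    obtain ⟨y', hy1, hy2, hy3, -⟩ := lab_down x h1 h2 d (by omega)
    obtain ⟨j, hj⟩ : ∃ j, j = n - (d + 1) := ⟨_, rfl⟩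
    have hj1 : n - d = j + 1 := by omega
    rw [hj1] at hy1
    rw [← hj]
    have hU : labU x (j + 1) = 4 * labU x j + labX x j := rfl
    rw [hU, pow_succ] at hy1
    obtain ⟨t, ht⟩ : ∃ t, t = 4 ^ j * k := ⟨_, rfl⟩
    obtain ⟨u, hu⟩ : ∃ u, u = labU x j * M := ⟨_, rfl⟩
    have hjn : j < n := by omega
    have hX : labX x j = 1 + (x ⟨j, hjn⟩).toNat := by
      unfold labX
      rw [dif_pos hjn]
    have h3 : 4 ^ j * 4 * k = 4 * t := by rw [ht]; ring
    have h4 : (4 * labU x j + labX x j) * M = 4 * u + labX x j * M := by rw [hu]; ring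
    rw [h3, h4] at hy1
    rw [← ht, ← hu]
    rcases hb : x ⟨j, hjn⟩ with _ | _
    · rw [hb] at hX
      have hX1 : labX x j = 1 := hX
      rw [hX1, one_mul] at hy1
      refine ⟨t - u, by omega, by omega, by omega, fun h => ⟨fun hc => ?_, fun _ => by omega⟩⟩
      rw [hb] at hc
      exact absurd hc (by decide)
    · rw [hb] at hX
      have hX1 : labX x j = 2 := hX
      rw [hX1] at hy1
      refine ⟨t - u, by omega, by omega, by omega, fun h => ⟨fun _ => by omega, fun hc => ?_⟩⟩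
      rw [hb] at hc
      exact absurd hc (by decide)

theorem exists_label (n N M : ℕ) (hM : 8 * 4 ^ n ≤ M) (x : Fin n → Bool) :
    ∃ k < M, ∀ A : ℕ → ℕ, (∀ j ≤ n, A j < 16 * (N + 1)) →
      (∀ j ≤ n, Approx M (16 * (N + 1)) N (4 ^ j * k % M) (A j)) →
      (∀ j ≤ n, 16 * (N + 1) ≤ 4 * A j ∧ 4 * A j < 3 * (16 * (N + 1))) ∧
      ∀ j : Fin n, decide (16 * (N + 1) ≤ 2 * A j) = x j := by
  have hP : 0 < 4 ^ n := pow_pos (by norm_num) n
  have hM0 : 0 < M := by omega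
  obtain ⟨T, hT⟩ : ∃ T, T = (16 * labU x n + 5) * M := ⟨_, rfl⟩
  obtain ⟨P, hPd⟩ : ∃ P, P = 16 * 4 ^ n := ⟨_, rfl⟩
  have hP0 : 0 < P := by omega
  have hk1 : P * ((T + P - 1) / P) ≤ T + P - 1 := Nat.mul_div_le _ _
  have hk2 : T + P - 1 < P * ((T + P - 1) / P + 1) := Nat.lt_mul_div_succ _ hP0
  set k := (T + P - 1) / P with hk
  rw [mul_add, mul_one] at hk2
  have h1 : (16 * labU x n + 5) * M ≤ 16 * 4 ^ n * k := by
    rw [← hT, ← hPd]
    omega
  have h2 : 16 * 4 ^ n * k < (16 * labU x n + 5) * M + 2 * M := by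
    rw [← hT, ← hPd]
    omega
  have hR := lab_down x h1 h2
  have hall : ∀ j ≤ n, ∃ y, 4 ^ j * k % M = y ∧ 4 ^ j * k = labU x j * M + y ∧ 5 * M ≤ 16 * y ∧
      16 * y < 11 * M ∧ ∀ h : j < n, (x ⟨j, h⟩ = true → 9 * M ≤ 16 * y) ∧
        (x ⟨j, h⟩ = false → 16 * y < 7 * M) := by
    intro j hj
    obtain ⟨y, hy1, hy2, hy3, hy4⟩ := hR (n - j) (Nat.sub_le n j)
    have hnj : n - (n - j) = j := by omega
    refine ⟨y, ?_, ?_, hy2, hy3, ?_⟩
    · rw [hnj] at hy1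
      rw [hy1, Nat.add_comm, Nat.add_mul_mod_self_right, Nat.mod_eq_of_lt (by omega)]
    · rw [hnj] at hy1
      exact hy1
    · intro h
      have h5 := hy4 (by omega)
      have h6 : (⟨n - (n - j), by omega⟩ : Fin n) = ⟨j, h⟩ := Fin.ext hnj
      rw [h6] at h5
      exact h5
  refine ⟨k, ?_, fun A hA hAp => ⟨fun j hj => ?_, fun j => ?_⟩⟩
  · obtain ⟨y, -, hy1, -, hy3, -⟩ := hall n le_rfl
    have h3 := labU_lt x n
    have h4 : 4 ^ n * k < 4 ^ n * M := by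
      have h5 : (labU x n + 1) * M ≤ 4 ^ n * M := Nat.mul_le_mul_right M h3
      rw [add_mul, one_mul] at h5
      omega
    exact Nat.lt_of_mul_lt_mul_left h4
  · obtain ⟨y, hy0, -, hy2, hy3, -⟩ := hall j hj
    have hap := hAp j hj
    rw [hy0] at hap
    obtain ⟨hlo, hhi⟩ := lab_arith hM0 (hA j hj) hap hy2 hy3
    have h5 := hlo 5 hy2
    have h11 := hhi 11 hy3
    constructor <;> omega
  · obtain ⟨y, hy0, -, hy2, hy3, hy4⟩ := hall j j.2.le
    have hap := hAp j j.2.le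
    rw [hy0] at hap
    obtain ⟨hlo, hhi⟩ := lab_arith hM0 (hA j j.2.le) hap hy2 hy3
    obtain ⟨ht, hf⟩ := hy4 j.2
    rcases hb : x j with _ | _
    · have h7 := hhi 7 (hf hb)
      rw [decide_eq_false_iff_not]
      omega
    · have h9 := hlo 9 (ht hb)
      rw [decide_eq_true_iff]
      omega

end Pool.Agent.LinSched
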