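import Pool.Agent.Lib.MP_b03ab8_lc.D.EndQ

/-!
# Module D.Layer: the layers of the automaton execute the program

PROOF. Let `N = Φ.N`, `B = BB N`, `A = Φ.CA`. Layer `l = (N + 1) p + i`, `i ≤ N`, belongs to the
instruction `o = ops.getD p fin` (`l / (N + 1) = p`, `l % (N + 1) = i`).
One instruction: for `p`, `i ≤ N` and every state `(m, c)`:
`A.run k ((N + 1) p + i) s = (m, c)` with `i ≤ N` and `A.run k ((N + 1) p) s = (m, c0)` imply
`c = (c0 + ∑ i' ∈ range i, qc N o.query i' (k % gg N i')) % B` and `m` unchanged (induction on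
`i`, the state is changed by `δ`, whose second case applies for `i < N`; `Nat.add_mod`), and
`A.run k ((N + 1) (p + 1)) s = (o.upd q B m ((c0 + ∑ i' ∈ range (N + 1), ...) % B), z)`.
For `c0 = 0` the answer is `Q N o.query k`.
`layers_F`: by induction on `p ≤ ops.length`, `A.run k ((N + 1) p) (m, z) =
((ops.take p).foldl ... m, z)` (`List.take_succ` / `List.take_add_one`, `getD` in range);
`p = ops.length`.
`layers_bon`: let `s` be arbitrary. `ops` has length `≥ 2` and its last element is `fin`: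
`ops = L ++ [fin]`, `L ≠ []` (`List.range (n + 1)` is not empty). After the first instruction
the partial sum is `z` (the first component arbitrary), hence it is `z` before the last
instruction, which is `fin` with the answer `a = Q N none k`: if `a ≠ 0` then
`Mem.start _ false` has `bon = false`; so `bon = true` implies `Q N none k = 0`, and
`MM N ∣ k + 1` by `end_query`.
-/

open Finset

namespace Pool.Agent.LinSched

private lemma dl_run_succ (Φ : QBF) (k l : ℕ) (s : Φ.State) :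
    Φ.CA.run k (l + 1) s = Φ.δ l (Φ.CA.run k l s) (k % gg Φ.N (l % (Φ.N + 1))) := rfl

private lemma dl_div (N p i : ℕ) (hi : i ≤ N) : ((N + 1) * p + i) / (N + 1) = p := by
  rw [Nat.mul_add_div (Nat.succ_pos N), Nat.div_eq_of_lt (by omega), add_zero]

private lemma dl_mod (N p i : ℕ) (hi : i ≤ N) : ((N + 1) * p + i) % (N + 1) = i := by
  rw [Nat.mul_add_mod, Nat.mod_eq_of_lt (by omega)]

private lemma dl_delta_lt (Φ : QBF) (l p i : ℕ) (hl : l / (Φ.N + 1) = p)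
    (hm : l % (Φ.N + 1) = i) (hi : i < Φ.N) (s : Φ.State) (r : ℕ) :
    (Φ.δ l s r).1 = s.1 ∧ ((Φ.δ l s r).2 : ℕ) =
      ((s.2 : ℕ) + qc Φ.N (Φ.ops.getD p Op.fin).query i r) % BB Φ.N := by
  subst hl hm
  simp only [QBF.δ]
  rw [if_neg (by omega)]
  exact ⟨rfl, rfl⟩

private lemma dl_delta_eq (Φ : QBF) (l p : ℕ) (hl : l / (Φ.N + 1) = p)
    (hm : l % (Φ.N + 1) = Φ.N) (s : Φ.State) (r : ℕ) :
    Φ.δ l s r = ((Φ.ops.getD p Op.fin).upd Φ.q (BB Φ.N) s.1
      (((s.2 : ℕ) + qc Φ.N (Φ.ops.getD p Op.fin).query Φ.N r) % BB Φ.N), Φ.z) := by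
  subst hl
  simp only [QBF.δ]
  rw [if_pos hm, hm]

private lemma dl_part (Φ : QBF) (k p : ℕ) (s : Φ.State) (i : ℕ) (hi : i ≤ Φ.N) :
    (Φ.CA.run k ((Φ.N + 1) * p + i) s).1 = (Φ.CA.run k ((Φ.N + 1) * p) s).1 ∧
    ((Φ.CA.run k ((Φ.N + 1) * p + i) s).2 : ℕ) =
      (((Φ.CA.run k ((Φ.N + 1) * p) s).2 : ℕ) +
        ∑ i' ∈ range i, qc Φ.N (Φ.ops.getD p Op.fin).query i' (k % gg Φ.N i')) % BB Φ.N := by
  induction i with
  | zero =>
    refine ⟨rfl, ?_⟩
    rw [range_zero, sum_empty, add_zero, add_zero, Nat.mod_eq_of_lt (Fin.isLt _)]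
  | succ i ih =>
    obtain ⟨h1, h2⟩ := ih (by omega)
    have e : Φ.CA.run k ((Φ.N + 1) * p + (i + 1)) s =
        Φ.δ ((Φ.N + 1) * p + i) (Φ.CA.run k ((Φ.N + 1) * p + i) s)
          (k % gg Φ.N (((Φ.N + 1) * p + i) % (Φ.N + 1))) := rfl
    obtain ⟨d1, d2⟩ := dl_delta_lt Φ _ p i (dl_div Φ.N p i (by omega))
      (dl_mod Φ.N p i (by omega)) (by omega) (Φ.CA.run k ((Φ.N + 1) * p + i) s)
      (k % gg Φ.N (((Φ.N + 1) * p + i) % (Φ.N + 1)))
    rw [e, d1, d2]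
    refine ⟨h1, ?_⟩
    rw [h2, sum_range_succ, Nat.mod_add_mod, add_assoc, dl_mod Φ.N p i (by omega)]

private lemma dl_instr (Φ : QBF) (k p : ℕ) (s : Φ.State) :
    Φ.CA.run k ((Φ.N + 1) * (p + 1)) s =
      ((Φ.ops.getD p Op.fin).upd Φ.q (BB Φ.N) (Φ.CA.run k ((Φ.N + 1) * p) s).1
        ((((Φ.CA.run k ((Φ.N + 1) * p) s).2 : ℕ) +
          ∑ i' ∈ range (Φ.N + 1), qc Φ.N (Φ.ops.getD p Op.fin).query i' (k % gg Φ.N i')) %
            BB Φ.N), Φ.z) := by
  obtain ⟨h1, h2⟩ := dl_part Φ k p s Φ.N le_rfl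
  have e : Φ.CA.run k ((Φ.N + 1) * (p + 1)) s =
      Φ.δ ((Φ.N + 1) * p + Φ.N) (Φ.CA.run k ((Φ.N + 1) * p + Φ.N) s)
        (k % gg Φ.N (((Φ.N + 1) * p + Φ.N) % (Φ.N + 1))) := rfl
  rw [e, dl_delta_eq Φ _ p (dl_div Φ.N p Φ.N le_rfl) (dl_mod Φ.N p Φ.N le_rfl), h1, h2,
    sum_range_succ, Nat.mod_add_mod, add_assoc, dl_mod Φ.N p Φ.N le_rfl]

theorem layers_F (Φ : QBF) (k : ℕ) (m : Mem Φ.n) :
    Φ.CA.F (m, Φ.z) k = (Φ.fold k m, Φ.z) := by
  have key : ∀ p, p ≤ Φ.ops.length → Φ.CA.run k ((Φ.N + 1) * p) (m, Φ.z) =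
      ((Φ.ops.take p).foldl (fun m o => o.upd Φ.q (BB Φ.N) m (Q Φ.N o.query k)) m, Φ.z) := by
    intro p
    induction p with
    | zero => intro _; simp [CA.run]
    | succ p ih =>
      intro hp
      have ih' := ih (by omega)
      rw [dl_instr, ih']
      have hg : Φ.ops.getD p Op.fin = Φ.ops[p]'(by omega) :=
        List.getD_eq_getElem _ _ (by omega)
      rw [List.take_succ_eq_append_getElem (by omega : p < Φ.ops.length), List.foldl_append, hg]
      simp only [List.foldl_cons, List.foldl_nil, QBF.z, zero_add]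
      rfl
  have h := key Φ.ops.length le_rfl
  rw [List.take_length] at h
  unfold CA.F QBF.fold
  rw [← h]
  have e : Φ.CA.L = (Φ.N + 1) * Φ.ops.length := by
    show Φ.ops.length * (Φ.N + 1) = _
    exact mul_comm _ _
  rw [e]

theorem layers_bon (Φ : QBF) (s : Φ.State) (k : ℕ) (h : Φ.CA.bon (Φ.CA.F s k) = true) :
    MM Φ.N ∣ k + 1 := by
  obtain ⟨L, hL, hops⟩ : ∃ L : List (Op Φ.n), L ≠ [] ∧ Φ.ops = L ++ [Op.fin] := by
    refine ⟨(List.range (Φ.n + 1)).map Op.valid ++ (List.finRange Φ.n).map Op.trig ++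
      (Φ.cl.flatMap fun c => c.map (fun l => Op.lit l.1 l.2) ++ [Op.endc]) ++
      (List.finRange Φ.n).map Op.climb, ?_, rfl⟩
    simp
  obtain ⟨r, hr⟩ : ∃ r, L.length = r + 1 :=
    Nat.exists_eq_succ_of_ne_zero (by simpa using hL)
  have hlen : Φ.ops.length = r + 1 + 1 := by rw [hops]; simp [hr]
  have e : Φ.CA.L = (Φ.N + 1) * (r + 1 + 1) := by
    show Φ.ops.length * (Φ.N + 1) = _
    rw [hlen]
    exact mul_comm _ _
  have h1 := dl_instr Φ k r s
  have h2 := dl_instr Φ k (r + 1) s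
  have hg : Φ.ops.getD (r + 1) Op.fin = Op.fin := by
    rw [hops, List.getD_append_right _ _ _ _ (by omega)]
    simp [hr]
  rw [hg] at h2
  have hF : Φ.CA.F s k = Φ.CA.run k ((Φ.N + 1) * (r + 1 + 1)) s := by
    unfold CA.F
    rw [e]
  rw [hF, h2] at h
  have hz : ((Φ.CA.run k ((Φ.N + 1) * (r + 1)) s).2 : ℕ) = 0 := by
    rw [h1]; rfl
  rw [hz, zero_add] at h
  rw [← end_query]
  by_contra hne
  change (Op.upd Φ.q (BB Φ.N) Op.fin (Φ.CA.run k ((Φ.N + 1) * (r + 1)) s).1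
    (Q Φ.N none k)).bon = true at h
  simp only [Op.upd] at h
  rw [if_neg hne] at h
  simp [Mem.start] at h

end Pool.Agent.LinSched
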