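import Pool.Agent.Lib.MP_b03ab8_lc.DDefs

/-!
# Module D.Order: lists with nondecreasing codes in which every label occurs

PROOF. `code (n + 1) x = (1 + x 0) 4 ^ n + code n (tail x)` (`Fin.sum_univ_succ`) and
`code n x < 4 ^ n` for all `n` (induction: `2 * 4 ^ n + code n _ < 3 * 4 ^ n < 4 ^ (n + 1)`; start
`code 0 = 0 < 1`). So `x 0 = false`, `y 0 = true` imply `code (n + 1) x < code (n + 1) y`, and
if `x 0 = y 0` the comparison of the codes is the comparison of the codes of the tails.

Induction on `n`. `n = 0`: `l` contains the only label, so `l ≠ []`. Step: let `l0` be the tails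
of the elements of `l` with `x 0 = false` (`List.filter`), `l1` those with `x 0 = true`. As the
list is nondecreasing in the code, no element with first coordinate `true` precedes one with
first coordinate `false`; so `l = (filter false l) ++ (filter true l)` (induction on the list:
if the head has first coordinate `false`, use the induction hypothesis for the rest; if it has
`true` then all elements have `true`, and the filters are `[]` and `l`). Sublists and tails keep
the order and every label of length `n` occurs in both: `Fin.cons false x ∈ l` etc.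
`Fin.cons (x 0) (tail x) = x`.
-/

open Finset

namespace Pool.Agent.LinSched

private theorem ord_code_succ (n : ℕ) (x : Fin (n + 1) → Bool) :
    code (n + 1) x = (1 + (x 0).toNat) * 4 ^ n + code n (fun j => x j.succ) := by
  unfold code
  rw [Fin.sum_univ_succ]
  congr 1
  refine Finset.sum_congr rfl fun j _ => ?_
  have h1 : n + 1 - 1 - ((j.succ : Fin (n + 1)) : ℕ) = n - 1 - (j : ℕ) := by
    rw [Fin.val_succ]
    omega
  rw [h1]

private theorem ord_code_lt (n : ℕ) (x : Fin n → Bool) : code n x < 4 ^ n := by
  induction n with
  | zero => simp [code]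
  | succ n ih =>
    rw [ord_code_succ]
    have h1 := ih (fun j => x j.succ)
    have h2 : (1 + (x 0).toNat) * 4 ^ n ≤ 2 * 4 ^ n := by
      refine Nat.mul_le_mul_right _ ?_
      have := (x 0).toNat_le
      omega
    have h3 : 4 ^ (n + 1) = 4 * 4 ^ n := by ring
    omega

private theorem ord_head {n : ℕ} {x y : Fin (n + 1) → Bool} (h : code (n + 1) x ≤ code (n + 1) y)
    (hx : x 0 = true) : y 0 = true := by
  by_contra hy
  rw [Bool.not_eq_true] at hy
  rw [ord_code_succ, ord_code_succ, hx, hy] at h
  have h1 := ord_code_lt n (fun j => y j.succ)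
  change (1 + 1) * 4 ^ n + _ ≤ (1 + 0) * 4 ^ n + _ at h
  omega

private theorem ord_tail {n : ℕ} {x y : Fin (n + 1) → Bool} (h : code (n + 1) x ≤ code (n + 1) y)
    (hxy : x 0 = y 0) : code n (fun j => x j.succ) ≤ code n (fun j => y j.succ) := by
  rw [ord_code_succ, ord_code_succ, hxy] at h
  omega

private theorem ord_split {n : ℕ} (l : List (Fin (n + 1) → Bool))
    (h : l.Pairwise (fun x y => code (n + 1) x ≤ code (n + 1) y)) :
    ∃ a b : List (Fin (n + 1) → Bool), l = a ++ b ∧ (∀ x ∈ a, x 0 = false) ∧ ∀ x ∈ b, x 0 = true := by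
  induction l with
  | nil => exact ⟨[], [], rfl, by simp, by simp⟩
  | cons x l ih =>
    rw [List.pairwise_cons] at h
    by_cases hx : x 0 = true
    · refine ⟨[], x :: l, rfl, by simp, ?_⟩
      intro y hy
      rcases List.mem_cons.1 hy with rfl | hy
      · exact hx
      · exact ord_head (h.1 y hy) hx
    · rw [Bool.not_eq_true] at hx
      obtain ⟨a, b, hab, ha, hb⟩ := ih h.2
      refine ⟨x :: a, b, by rw [hab]; rfl, ?_, hb⟩
      intro y hy
      rcases List.mem_cons.1 hy with rfl | hy
      · exact hx
      · exact ha y hy

private theorem ord_map_tail {n : ℕ} (a : List (Fin (n + 1) → Bool)) (c : Bool) (ha : ∀ x ∈ a, x 0 = c) :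
    a = (a.map fun x => fun j : Fin n => x j.succ).map (fun x => (Fin.cons c x : Fin (n + 1) → Bool)) := by
  rw [List.map_map]
  refine (List.map_id a).symm.trans (List.map_congr_left fun x hx => ?_)
  change x = (Fin.cons c (fun j : Fin n => x j.succ) : Fin (n + 1) → Bool)
  rw [← ha x hx]
  exact (Fin.cons_self_tail x).symm

theorem sorted_of_code (n : ℕ) (l : List (Fin n → Bool))
    (h : l.Pairwise (fun x y => code n x ≤ code n y)) (hc : ∀ x, x ∈ l) : Sorted n l := by
  induction n with
  | zero =>
    change l ≠ []
    intro h0
    have h1 := hc Fin.elim0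
    rw [h0] at h1
    exact absurd h1 List.not_mem_nil
  | succ n ih =>
    obtain ⟨a, b, rfl, ha, hb⟩ := ord_split l h
    rw [List.pairwise_append] at h
    obtain ⟨h1, h2, -⟩ := h
    refine ⟨a.map fun x => fun j : Fin n => x j.succ, b.map fun x => fun j : Fin n => x j.succ, ?_, ?_, ?_⟩
    · refine ih _ ?_ ?_
      · rw [List.pairwise_map]
        exact h1.imp_of_mem fun hx hy hxy => ord_tail hxy (by rw [ha _ hx, ha _ hy])
      · intro z
        have h3 := hc (Fin.cons false z : Fin (n + 1) → Bool)
        rcases List.mem_append.1 h3 with h4 | h4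
        · exact List.mem_map.2 ⟨_, h4, rfl⟩
        · have h5 := hb _ h4
          exact absurd h5 (by rw [Fin.cons_zero]; decide)
    · refine ih _ ?_ ?_
      · rw [List.pairwise_map]
        exact h2.imp_of_mem fun hx hy hxy => ord_tail hxy (by rw [hb _ hx, hb _ hy])
      · intro z
        have h3 := hc (Fin.cons true z : Fin (n + 1) → Bool)
        rcases List.mem_append.1 h3 with h4 | h4
        · have h5 := ha _ h4
          exact absurd h5 (by rw [Fin.cons_zero]; decide)
        · exact List.mem_map.2 ⟨_, h4, rfl⟩
    · rw [← ord_map_tail a false ha, ← ord_map_tail b true hb]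

end Pool.Agent.LinSched
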