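import Pool.Agent.Lib.MP_b03ab8_lc.D.EndQ
import Pool.Agent.Lib.MP_b03ab8_lc.D.Digit
import Pool.Agent.Lib.MP_b03ab8_lc.D.Label
import Pool.Agent.Lib.MP_b03ab8_lc.D.Order

/-!
# Module D.Seq: the labels of a period, in order

PROOF. Let `N = 4 n + 8`, `M = MM N`. `sorted_of_code`, for the list of the labels of the valid
`k < M`.
* Order: `List.range M` is increasing, filter and map keep it (`List.pairwise_map`,
  `List.Pairwise.filter`, `List.pairwise_lt_range`); for valid `k < k' < M`:
  `code (label k) = 4 ^ n k / M ≤ 4 ^ n k' / M = code (label k')` by `digit_code` with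
  `A j = Q N (some j) k` (`crt_query`; `valid` unfolds to the hypothesis `hv`, `BB N` is
  `16 * (N + 1)` by definition).
* Every label `x` occurs: `exists_label` (`MM_large`) gives `k < M`; apply it to
  `A j = Q N (some j) k`, `A j < BB N` (`Nat.mod_lt`), `crt_query`: `k` is valid and
  `label k = x`.
-/

open Finset

namespace Pool.Agent.LinSched

private lemma sq_valid {n N k : ℕ} (h : valid n N k = true) :
    ∀ j ≤ n, 16 * (N + 1) ≤ 4 * Q N (some j) k ∧ 4 * Q N (some j) k < 3 * (16 * (N + 1)) := by
  intro j hj
  unfold valid at h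
  rw [List.all_eq_true] at h
  have := h j (List.mem_range.2 (by omega))
  rw [decide_eq_true_eq] at this
  exact this

private lemma sq_valid' {n N k : ℕ}
    (h : ∀ j ≤ n, 16 * (N + 1) ≤ 4 * Q N (some j) k ∧ 4 * Q N (some j) k < 3 * (16 * (N + 1))) :
    valid n N k = true := by
  unfold valid
  rw [List.all_eq_true]
  intro j hj
  rw [decide_eq_true_eq]
  exact h j (by rw [List.mem_range] at hj; omega)

private lemma sq_code {n N k : ℕ} (hk : k < MM N) (h : valid n N k = true) :
    code n (label n N k) = 4 ^ n * k / MM N :=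
  (digit_code n N (MM N) k (fun j => Q N (some j) k) (MM_pos N) hk
    (fun j _ => crt_query N j k) (sq_valid h)).symm

theorem labels_sorted (n : ℕ) :
    Sorted n (((List.range (MM (4 * n + 8))).filter fun k => valid n (4 * n + 8) k).map
      fun k => label n (4 * n + 8) k) := by
  apply sorted_of_code
  · rw [List.pairwise_map]
    refine List.Pairwise.imp_of_mem (R := fun a b => a < b) ?_
      (List.Pairwise.filter _ List.pairwise_lt_range)
    intro a b ha hb hab
    rw [List.mem_filter, List.mem_range] at ha hb
    rw [sq_code ha.1 ha.2, sq_code hb.1 hb.2]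
    exact Nat.div_le_div_right (Nat.mul_le_mul_left _ hab.le)
  · intro x
    obtain ⟨k, hk, h⟩ := exists_label n (4 * n + 8) (MM (4 * n + 8)) (MM_large n) x
    obtain ⟨h1, h2⟩ := h (fun j => Q (4 * n + 8) (some j) k)
      (fun j _ => Nat.mod_lt _ (by unfold BB; omega)) (fun j _ => crt_query _ j k)
    rw [List.mem_map]
    refine ⟨k, List.mem_filter.2 ⟨List.mem_range.2 hk, sq_valid' h1⟩, ?_⟩
    funext j
    exact h2 j

end Pool.Agent.LinSched
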