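import Pool.Agent.Lib.MP_b03ab8_lc.D.Layer
import Pool.Agent.Lib.MP_b03ab8_lc.D.Fold
import Pool.Agent.Lib.MP_b03ab8_lc.D.Dfs
import Pool.Agent.Lib.MP_b03ab8_lc.D.Seq

/-!
# Module D.Traj: the automaton of a formula is good

PROOF. Let `N = Φ.N`, `M = MM N`, `A = Φ.CA`.
`L3`: `ops.length ≥ 1`, `N + 1 ≥ 9`. `Mpos`: `MM_pos`. `gdvd`: `gg_dvd` (`l % (N + 1) ≤ N`).
`bonM`: `layers_bon`.
Trajectory: for `k ≤ M - 1`: `A.σ k = (Mem.start (st k) false, z)` where
`st k = (((List.range k).filter valid).map label).foldl (dfs q matrix) act`. Induction: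
`A.F (A.σ k) k = (Φ.fold k (Mem.start (st k) false), z)` (`layers_F`), and for `k + 1 < M`, not
`M ∣ k + 1`, so `Q N none k ≠ 0` (`end_query`) and by `fold_eq` it is
`(Mem.start (st (k + 1)) false, z)`, whose `bon` is `false`
(`List.range_succ`, `List.filter_append`, `List.foldl_append`).
For `k = M - 1`: `M ∣ k + 1`, `Q = 0`, so
`A.F (A.σ k) k = (Mem.start act (decide (st M = fin true)), z)` and
`st M = fin Φ.truth` by `dfs_fold` and `labels_sorted` (`Φ.N = 4 Φ.n + 8`); so `bon = Φ.truth`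
(`bonus`). And `A.σ M = A.s0` in both cases (`ret`): if `bon` is true by definition of `σ`, and
otherwise `Mem.start act false` is the memory of `s0`.
-/

open Finset

namespace Pool.Agent.LinSched

/-- The state of the search before time step `k`. -/
private def tjSt (Φ : QBF) (k : ℕ) : St Φ.n :=
  (((List.range k).filter fun j => valid Φ.n Φ.N j).map fun j => label Φ.n Φ.N j).foldl
    (dfs Φ.q Φ.matrix) St.act

private lemma tjSt_succ (Φ : QBF) (k : ℕ) : tjSt Φ (k + 1) =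
    if valid Φ.n Φ.N k then dfs Φ.q Φ.matrix (tjSt Φ k) (label Φ.n Φ.N k) else tjSt Φ k := by
  unfold tjSt
  rw [List.range_succ, List.filter_append, List.map_append, List.foldl_append]
  by_cases h : valid Φ.n Φ.N k = true
  · rw [if_pos h, List.filter_cons_of_pos h]
    rfl
  · rw [if_neg h, List.filter_cons_of_neg h]
    rfl

private lemma tj_F (Φ : QBF) (k : ℕ) (h : Φ.CA.σ k = (Mem.start (tjSt Φ k) false, Φ.z)) :
    Φ.CA.F (Φ.CA.σ k) k = (if Q Φ.N none k = 0 then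
      Mem.start St.act (decide (tjSt Φ (k + 1) = St.fin true))
      else Mem.start (tjSt Φ (k + 1)) false, Φ.z) := by
  rw [h, layers_F, fold_eq, tjSt_succ]

private lemma tj_sigma (Φ : QBF) : ∀ k, k < MM Φ.N →
    Φ.CA.σ k = (Mem.start (tjSt Φ k) false, Φ.z)
  | 0, _ => rfl
  | k + 1, hk => by
    have ih := tj_sigma Φ k (by omega)
    have hF := tj_F Φ k ih
    have hQ : Q Φ.N none k ≠ 0 := by
      intro h0
      have := Nat.le_of_dvd (Nat.succ_pos k) ((end_query Φ.N k).1 h0)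
      omega
    rw [if_neg hQ] at hF
    show (if Φ.CA.bon (Φ.CA.F (Φ.CA.σ k) k) then Φ.CA.s0 else Φ.CA.F (Φ.CA.σ k) k) = _
    rw [hF]
    rfl

private lemma tj_last (Φ : QBF) : tjSt Φ (MM Φ.N) = St.fin Φ.truth :=
  dfs_fold Φ.n Φ.q Φ.matrix _ (labels_sorted Φ.n)

theorem CA_good (Φ : QBF) : Φ.CA.Good (MM Φ.N) Φ.truth := by
  have hM := MM_pos Φ.N
  have hF := tj_F Φ (MM Φ.N - 1) (tj_sigma Φ _ (by omega))
  have hQ : Q Φ.N none (MM Φ.N - 1) = 0 := by
    rw [end_query, Nat.sub_add_cancel hM]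
  rw [if_pos hQ, Nat.sub_add_cancel hM, tj_last] at hF
  have hd : decide ((St.fin Φ.truth : St Φ.n) = St.fin true) = Φ.truth := by
    cases Φ.truth <;> simp
  rw [hd] at hF
  refine ⟨?_, hM, ?_, ?_, ?_, ?_⟩
  · show 3 ≤ Φ.ops.length * (Φ.N + 1)
    have h1 := ops_length_pos Φ
    have h2 : 3 ≤ Φ.N + 1 := by unfold QBF.N; omega
    calc 3 ≤ 1 * (Φ.N + 1) := by omega
      _ ≤ _ := Nat.mul_le_mul_right _ h1
  · intro l _
    exact gg_dvd Φ.N _ (Nat.lt_succ_iff.1 (Nat.mod_lt _ (Nat.succ_pos _)))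
  · intro s k h
    exact layers_bon Φ s k h
  · have e : Φ.CA.σ (MM Φ.N) = Φ.CA.σ (MM Φ.N - 1 + 1) := by rw [Nat.sub_add_cancel hM]
    rw [e]
    show (if Φ.CA.bon (Φ.CA.F (Φ.CA.σ (MM Φ.N - 1)) (MM Φ.N - 1)) then Φ.CA.s0 else
      Φ.CA.F (Φ.CA.σ (MM Φ.N - 1)) (MM Φ.N - 1)) = Φ.CA.s0
    rw [hF]
    split_ifs with hb
    · rfl
    · have hb' : Φ.truth = false := by
        have : ¬ (Φ.truth = true) := hb
        simpa using this
      rw [hb']
      rfl
  · rw [hF]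
    rfl

end Pool.Agent.LinSched
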